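import Pool.Agent.MP_5c28a4_al.H89S.Spec

/-!
Section S4 of the plan: reduction to a kernel of finite exponent.
-/

set_option autoImplicit false

namespace Pool.Agent.MP_5c28a4_al.H89S

open scoped commutatorElement TensorProduct

namespace BddA

variable {G : Type} [Group G]

/-- invariant under all endomorphisms -/
def Fi (X : Subgroup G) : Prop := ∀ σ : G →* G, X.map σ ≤ X

theorem Fi.mem {X : Subgroup G} (h : Fi X) (σ : G →* G) {x : G} (hx : x ∈ X) : σ x ∈ X :=
  h σ ⟨x, hx, rfl⟩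

theorem Fi.normal {X : Subgroup G} (h : Fi X) : X.Normal :=
  ⟨fun _ hx g => h.mem (MulAut.conj g).toMonoidHom hx⟩

theorem Fi.lcs {X : Subgroup G} (h : Fi X) (j : ℕ) : Fi (X.lowerCentralSeries j) := fun σ => by
  rw [Subgroup.map_lowerCentralSeries]
  exact Subgroup.lowerCentralSeries_mono j (h σ)

theorem Fi.inf {X Y : Subgroup G} (h : Fi X) (h' : Fi Y) : Fi (X ⊓ Y) := by
  rintro σ _ ⟨x, hx, rfl⟩
  exact ⟨h.mem σ hx.1, h'.mem σ hx.2⟩

theorem pow_mem_pw {X : Subgroup G} {x : G} (hx : x ∈ X) (n : ℕ) : x ^ n ∈ pw X n :=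
  Subgroup.subset_closure ⟨x, hx, rfl⟩

theorem pw_le_of {X Y : Subgroup G} {n : ℕ} (h : ∀ x ∈ X, x ^ n ∈ Y) : pw X n ≤ Y :=
  (Subgroup.closure_le _).2 fun _ ⟨y, hy, e⟩ => e ▸ h y hy

theorem pw_le (X : Subgroup G) (n : ℕ) : pw X n ≤ X := pw_le_of fun _ hx => X.pow_mem hx n

theorem pw_mono {X Y : Subgroup G} (h : X ≤ Y) (n : ℕ) : pw X n ≤ pw Y n :=
  pw_le_of fun _ hx => pow_mem_pw (h hx) n

theorem Fi.pw {X : Subgroup G} (h : Fi X) (n : ℕ) : Fi (pw X n) := fun σ =>
  Subgroup.map_le_iff_le_comap.2 (pw_le_of fun x hx => by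
    rw [Subgroup.mem_comap, map_pow]
    exact pow_mem_pw (h.mem σ hx) n)

theorem mem_pw {X : Subgroup G} (h : Cm X X) {n : ℕ} {x : G} (hx : x ∈ pw X n) :
    ∃ y ∈ X, x = y ^ n := by
  induction hx using Subgroup.closure_induction with
  | mem x hx => exact hx
  | one => exact ⟨1, X.one_mem, (one_pow n).symm⟩
  | mul x y _ _ hx hy =>
    obtain ⟨a, ha, rfl⟩ := hx
    obtain ⟨b, hb, rfl⟩ := hy
    exact ⟨a * b, X.mul_mem ha hb, (Commute.mul_pow (h a ha b hb) n).symm⟩
  | inv x _ hx =>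
    obtain ⟨a, ha, rfl⟩ := hx
    exact ⟨a⁻¹, X.inv_mem ha, (inv_pow a n).symm⟩

section Add

variable {A : Type} [AddCommGroup A] {X : Subgroup G} {c : G → A}

theorem add_one (h : AddOn X c) : c 1 = 0 := by
  have := h 1 X.one_mem 1 X.one_mem
  rw [one_mul] at this
  exact left_eq_add.1 this

theorem add_inv (h : AddOn X c) {x : G} (hx : x ∈ X) : c x⁻¹ = -c x := by
  have := h x hx x⁻¹ (X.inv_mem hx)
  rw [mul_inv_cancel, add_one h] at this
  exact (neg_eq_of_add_eq_zero_right this.symm).symm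

theorem add_pow (h : AddOn X c) {x : G} (hx : x ∈ X) (n : ℕ) : c (x ^ n) = n • c x := by
  induction n with
  | zero => rw [pow_zero, add_one h, zero_smul]
  | succ n ih => rw [pow_succ, h _ (X.pow_mem hx n) _ hx, ih, succ_nsmul]

theorem add_comm_zero (h : AddOn X c) {x : G} (hx : x ∈ ⁅X, X⁆) : c x = 0 := by
  have key : x ∈ X ∧ c x = 0 := by
    induction hx using Subgroup.closure_induction with
    | mem x hx =>
      obtain ⟨a, ha, b, hb, rfl⟩ := hx
      have h1 := X.mul_mem ha hb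
      have h2 := X.mul_mem h1 (X.inv_mem ha)
      refine ⟨X.mul_mem h2 (X.inv_mem hb), ?_⟩
      rw [commutatorElement_def, h _ h2 _ (X.inv_mem hb), h _ h1 _ (X.inv_mem ha), h _ ha _ hb,
        add_inv h ha, add_inv h hb]
      abel
    | one => exact ⟨X.one_mem, add_one h⟩
    | mul x y _ _ hx hy => exact ⟨X.mul_mem hx.1 hy.1, by rw [h _ hx.1 _ hy.1, hx.2, hy.2, add_zero]⟩
    | inv x _ hx => exact ⟨X.inv_mem hx.1, by rw [add_inv h hx.1, hx.2, neg_zero]⟩
  exact key.2

end Add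

theorem exists_cls (X Y : Subgroup G) (h : ⁅X, X⁆ ≤ Y) :
    ∃ (A : Type) (_ : AddCommGroup A) (c : G → A), AddOn X c ∧ ∀ x ∈ X, c x = 0 ↔ x ∈ Y := by
  classical
  let B : Subgroup (Abelianization X) := (Y.subgroupOf X).map Abelianization.of
  refine ⟨Additive (Abelianization X ⧸ B), inferInstance, fun x =>
    if hx : x ∈ X then Additive.ofMul (QuotientGroup.mk (Abelianization.of ⟨x, hx⟩)) else 0,
    fun x hx y hy => ?_, fun x hx => ?_⟩
  · simp only [dif_pos hx, dif_pos hy, dif_pos (X.mul_mem hx hy)]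
    rw [← ofMul_mul, ← QuotientGroup.mk_mul, ← map_mul]
    rfl
  · simp only [dif_pos hx]
    rw [ofMul_eq_zero, QuotientGroup.eq_one_iff]
    refine ⟨?_, fun hy => ⟨⟨x, hx⟩, hy, rfl⟩⟩
    rintro ⟨y, hy, e⟩
    have h1 : y⁻¹ * ⟨x, hx⟩ ∈ commutator X := by
      rw [← Abelianization.ker_of, MonoidHom.mem_ker, map_mul, map_inv, e, inv_mul_cancel]
    have h2 : (y : G)⁻¹ * x ∈ ⁅X, X⁆ := by
      rw [← Subgroup.map_subtype_commutator]
      exact ⟨_, h1, rfl⟩
    have := Y.mul_mem hy (h h2)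
    rwa [Subgroup.coe_subtype, mul_inv_cancel_left] at this

/-- the commutator map from a tensor power of the relation module onto a lower central factor -/
theorem layer (hC : BCom) (hM : SMag) {I : Type} [Fintype I] (g : I → G)
    (hg : Subgroup.closure (Set.range g) = ⊤)
    (hfree : ∀ y : I → G, ∃ σ : G →* G, ∀ i, σ (g i) = y i) (K : Subgroup G) (hK : Fi K)
    {Γ : Type} [Group Γ] (f : G →* Γ) (hf : f.ker = K)
    (hγ : Subgroup.closure (Set.range fun i => f (g i)) = ⊤) (j : ℕ) :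
    ∃ (A : Type) (_ : AddCommGroup A) (c : G → A) (κ : TT (fun i => f (g i)) (j + 1) →ₗ[ℤ] A),
      AddOn (K.lowerCentralSeries j) c ∧
      (∀ x ∈ K.lowerCentralSeries j, c x = 0 ↔ x ∈ K.lowerCentralSeries (j + 1)) ∧
      (∀ x ∈ K.lowerCentralSeries j, ∃ t, κ t = c x) ∧
      ∀ (θ : Th fun i => f (g i)) (n : ℕ) (t), n • κ t = 0 → n • κ (act θ (j + 1) t) = 0 := by
  classical
  set γ : I → Γ := fun i => f (g i) with hγd
  obtain ⟨A, _, c, hc, hc0⟩ := exists_cls (K.lowerCentralSeries j) (K.lowerCentralSeries (j + 1))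
    (Subgroup.commutator_mono le_rfl (K.lowerCentralSeries_le_self j))
  obtain ⟨d, d1, d2, d3, d4, d5⟩ := hM Γ I γ hγ
  let π : FreeGroup I →* G := FreeGroup.lift g
  have hπ : ∀ x, FreeGroup.lift γ x = f (π x) := fun x => by
    have : FreeGroup.lift γ = f.comp π := FreeGroup.ext_hom _ _ fun i => by simp [π, γ]
    rw [this]; rfl
  have hR : ∀ x, FreeGroup.lift γ x = 1 ↔ π x ∈ K := fun x => by
    rw [hπ, ← hf, MonoidHom.mem_ker]
  have hsurj : ∀ x : G, ∃ y, π y = x := fun x => by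
    have : x ∈ π.range := by
      rw [FreeGroup.range_lift_eq_closure, hg]; trivial
    exact this
  have dR : ∀ a b, π a ∈ K → d (a * b) = d a + d b := fun a b ha => by
    rw [d1, (hR a).2 ha, map_one, one_smul]
  have d0 : d 1 = 0 := by
    have := dR 1 1 (by rw [map_one]; exact K.one_mem)
    rw [one_mul] at this
    exact left_eq_add.1 this
  have dV : ∀ a, π a ∈ K → d a ∈ VV γ := fun a ha => by
    change del γ (d a) = 0
    rw [d3, (hR a).2 ha, map_one, sub_self]
  -- additivity in one slot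
  have slot : ∀ (x : Fin (j + 1) → G), (∀ l, x l ∈ K) → ∀ l,
      AddOn K fun a => c (lc j (Function.update x l a)) := fun x hx l a ha b hb => by
    have hm : ∀ a ∈ K, lc j (Function.update x l a) ∈ K.lowerCentralSeries j := fun a ha =>
      hC.mem G K j _ fun i => by
        rcases eq_or_ne i l with rfl | hi
        · rwa [Function.update_self]
        · rw [Function.update_of_ne hi]; exact hx i
    have h1 := hC.mul G K j x l a b hx ha hb
    have h2 := Subgroup.mul_mem _ (hm a ha) (hm b hb)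
    have h3 := (hc0 _ (K.lowerCentralSeries_antitone (Nat.le_succ j) h1)).2 h1
    rw [hc _ (hm _ (K.mul_mem ha hb)) _ (Subgroup.inv_mem _ h2), add_inv hc h2,
      hc _ (hm a ha) _ (hm b hb), add_neg_eq_zero] at h3
    exact h3
  have same : ∀ a b, π a ∈ K → π b ∈ K → d a = d b → ∀ e : G → A, AddOn K e →
      e (π a) = e (π b) := fun a b ha hb hab e he => by
    have hb' : π b⁻¹ ∈ K := by rw [map_inv]; exact K.inv_mem hb
    have h1 : d (b⁻¹ * a) = 0 := by
      rw [dR _ _ hb', hab, ← dR _ _ hb', inv_mul_cancel, d0]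
    have h2 := d5 (b⁻¹ * a) ((hR _).2 (by rw [map_mul]; exact K.mul_mem hb' ha)) h1
    have h3 : π (b⁻¹ * a) ∈ ⁅K, K⁆ := by
      have hle : (FreeGroup.lift γ).ker.map π ≤ K := by
        rintro _ ⟨y, hy, rfl⟩
        exact (hR y).1 hy
      refine Subgroup.commutator_mono hle hle ?_
      rw [← Subgroup.map_commutator]
      exact ⟨_, h2, rfl⟩
    have h4 := add_comm_zero he h3
    rw [map_mul, he _ hb' _ ha, map_inv, add_inv he hb, neg_add_eq_zero] at h4
    exact h4.symm
  have well : ∀ r r' : Fin (j + 1) → FreeGroup I, (∀ l, π (r l) ∈ K) → (∀ l, π (r' l) ∈ K) →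
      (∀ l, d (r l) = d (r' l)) → c (lc j fun l => π (r l)) = c (lc j fun l => π (r' l)) := by
    intro r r' hr hr' hd
    have key : ∀ s : Finset (Fin (j + 1)),
        c (lc j (s.piecewise (fun l => π (r l)) fun l => π (r' l))) =
          c (lc j fun l => π (r' l)) := fun s => by
      induction s using Finset.induction_on with
      | empty => rw [Finset.piecewise_empty]
      | insert a s ha ih =>
        rw [Finset.piecewise_insert, ← ih]
        have hx : ∀ l, s.piecewise (fun l => π (r l)) (fun l => π (r' l)) l ∈ K := fun l => by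
          unfold Finset.piecewise
          split_ifs
          exacts [hr l, hr' l]
        have := same (r a) (r' a) (hr a) (hr' a) (hd a) _ (slot _ hx a)
        rw [this, Function.update_eq_self_iff.2 (Finset.piecewise_eq_of_notMem _ _ _ ha).symm]
    rw [← key Finset.univ, Finset.piecewise_univ]
  choose ρ ρ1 ρ2 using fun v : VV γ => d4 v.1 v.2
  have ρK : ∀ v, π (ρ v) ∈ K := fun v => (hR _).1 (ρ1 v)
  have upd : ∀ (v : Fin (j + 1) → VV γ) (l : Fin (j + 1)) (a : VV γ),
      (fun i => π (ρ (Function.update v l a i))) =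
        Function.update (fun i => π (ρ (v i))) l (π (ρ a)) := fun v l a =>
    Function.comp_update (fun a => π (ρ a)) v l a
  have madd : ∀ (v : Fin (j + 1) → VV γ) (l : Fin (j + 1)) (a b : VV γ),
      c (lc j fun i => π (ρ (Function.update v l (a + b) i))) =
        c (lc j fun i => π (ρ (Function.update v l a i))) +
          c (lc j fun i => π (ρ (Function.update v l b i))) := fun v l a b => by
    have hs := slot (fun i => π (ρ (v i))) (fun i => ρK _) l
    rw [upd, upd, upd, ← hs _ (ρK a) _ (ρK b), ← map_mul]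
    refine same _ _ (ρK _) (by rw [map_mul]; exact K.mul_mem (ρK a) (ρK b)) ?_ _ hs
    rw [dR _ _ (ρK a), ρ2, ρ2, ρ2, Submodule.coe_add]
  let M : MultilinearMap ℤ (fun _ : Fin (j + 1) => VV γ) A :=
    MultilinearMap.mk' (fun v => c (lc j fun i => π (ρ (v i)))) madd fun v l n a =>
      map_intCast_smul (AddMonoidHom.mk'
        (fun a => c (lc j fun i => π (ρ (Function.update v l a i)))) (madd v l)) ℤ ℤ n a
  have hκ : ∀ (r : Fin (j + 1) → FreeGroup I) (hr : ∀ l, π (r l) ∈ K),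
      PiTensorProduct.lift M (PiTensorProduct.tprod ℤ fun l => ⟨d (r l), dV _ (hr l)⟩) =
        c (lc j fun l => π (r l)) := fun r hr => by
    rw [PiTensorProduct.lift.tprod]
    exact well _ _ (fun l => ρK _) hr fun l => ρ2 _
  refine ⟨A, inferInstance, c, PiTensorProduct.lift M, hc, hc0, fun x hx => ?_, fun θ n t => ?_⟩
  · have h1 := hC.gen G (K : Set G) j
    rw [Subgroup.closure_eq] at h1
    let P : Subgroup G :=
      { carrier := {x | x ∈ K.lowerCentralSeries j ∧ ∃ t, PiTensorProduct.lift M t = c x}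
        one_mem' := ⟨Subgroup.one_mem _, 0, by rw [map_zero, add_one hc]⟩
        mul_mem' := fun {a b} ⟨ha, s, hs⟩ ⟨hb, t, ht⟩ =>
          ⟨Subgroup.mul_mem _ ha hb, s + t, by rw [map_add, hs, ht, hc _ ha _ hb]⟩
        inv_mem' := fun {a} ⟨ha, s, hs⟩ =>
          ⟨Subgroup.inv_mem _ ha, -s, by rw [map_neg, hs, add_inv hc ha]⟩ }
    have h2 : K.lowerCentralSeries j ≤ P := h1.trans (sup_le ((Subgroup.closure_le _).2 ?_)
      fun y hy => ?_)
    · exact (h2 hx).2
    · rintro _ ⟨y, hy, rfl⟩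
      choose r hr using fun l => hsurj (y l)
      obtain rfl : y = fun l => π (r l) := funext fun l => (hr l).symm
      exact ⟨hC.mem G K j _ hy, _, hκ r hy⟩
    · have hy' := K.lowerCentralSeries_antitone (Nat.le_succ j) hy
      exact ⟨hy', 0, by rw [map_zero, (hc0 y hy').2 hy]⟩
  · choose u u1 u2 using fun i => d4 (θ.1 (Pi.single i 1) - Pi.single i 1) (by
      change del γ _ = 0
      rw [map_sub, θ.2, sub_self])
    let τ : FreeGroup I →* FreeGroup I := FreeGroup.lift fun i => u i * FreeGroup.of i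
    obtain ⟨σ, hσ⟩ := hfree fun i => π (u i) * g i
    have hστ : ∀ x, π (τ x) = σ (π x) := fun x => by
      have : π.comp τ = σ.comp π := FreeGroup.ext_hom _ _ fun i => by simp [π, τ, hσ]
      exact DFunLike.congr_fun this x
    have hγτ : ∀ x, FreeGroup.lift γ (τ x) = FreeGroup.lift γ x := fun x => by
      have : (FreeGroup.lift γ).comp τ = FreeGroup.lift γ :=
        FreeGroup.ext_hom _ _ fun i => by simp [τ, u1]
      exact DFunLike.congr_fun this x
    have dinv : ∀ x, d x⁻¹ = -(MonoidAlgebra.of ℤ Γ (FreeGroup.lift γ x⁻¹) • d x) := fun x => by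
      have := d1 x⁻¹ x
      rw [inv_mul_cancel, d0] at this
      exact eq_neg_of_add_eq_zero_left this.symm
    have hdτ : ∀ x, d (τ x) = θ.1 (d x) := fun x => by
      induction x using FreeGroup.induction_on with
      | C1 => rw [map_one, d0, map_zero]
      | of i =>
        rw [show τ (FreeGroup.of i) = u i * FreeGroup.of i from FreeGroup.lift_apply_of, d1, u1,
          u2, d2, map_one, one_smul, sub_add_cancel]
      | inv_of i ih => rw [map_inv, dinv, dinv, ← map_inv, hγτ, ih, map_neg, map_smul]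
      | mul x y hx hy => rw [map_mul, d1, d1, hγτ, hx, hy, map_add, map_smul]
    have key : ∃ x ∈ K.lowerCentralSeries j, PiTensorProduct.lift M t = c x ∧
        PiTensorProduct.lift M (act θ (j + 1) t) = c (σ x) := by
      have pure : ∀ v : Fin (j + 1) → VV γ, ∃ x ∈ K.lowerCentralSeries j,
          PiTensorProduct.lift M (PiTensorProduct.tprod ℤ v) = c x ∧
          PiTensorProduct.lift M (act θ (j + 1) (PiTensorProduct.tprod ℤ v)) = c (σ x) := fun v => by
        refine ⟨lc j fun i => π (ρ (v i)), hC.mem G K j _ fun i => ρK _,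
          PiTensorProduct.lift.tprod _, ?_⟩
        have hr : ∀ l, π (τ (ρ (v l))) ∈ K := fun l => by
          rw [hστ]; exact hK.mem σ (ρK _)
        rw [hC.map, act, PiTensorProduct.map_tprod]
        simp only [← hστ]
        rw [← hκ _ hr]
        refine congrArg _ (congrArg _ (funext fun l => Subtype.ext ?_))
        change θ.1 (v l) = d (τ (ρ (v l)))
        rw [hdτ, ρ2]
      induction t using PiTensorProduct.induction_on with
      | smul_tprod a v =>
        have : a • PiTensorProduct.tprod ℤ v =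
            PiTensorProduct.tprod ℤ (Function.update v 0 (a • v 0)) := by
          rw [MultilinearMap.map_update_smul, Function.update_eq_self]
        rw [this]
        exact pure _
      | add s t hs ht =>
        obtain ⟨x, hx, x1, x2⟩ := hs
        obtain ⟨y, hy, y1, y2⟩ := ht
        refine ⟨x * y, Subgroup.mul_mem _ hx hy, by rw [map_add, x1, y1, hc _ hx _ hy], ?_⟩
        rw [map_add, map_add, x2, y2, map_mul,
          hc _ ((hK.lcs j).mem σ hx) _ ((hK.lcs j).mem σ hy)]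
    obtain ⟨x, hx, x1, x2⟩ := key
    intro h
    rw [x1, ← add_pow hc hx, hc0 _ (Subgroup.pow_mem _ hx n)] at h
    have hx' := (hK.lcs j).mem σ hx
    rw [x2, ← add_pow hc hx', hc0 _ (Subgroup.pow_mem _ hx' n), ← map_pow]
    exact (hK.lcs (j + 1)).mem σ h

theorem inv_ker {Γ I : Type} [Group Γ] [Fintype I] {γ : I → Γ} {m : ℕ} {A : Type}
    [AddCommGroup A] (κ : TT γ m →ₗ[ℤ] A) (n : ℕ)
    (h : ∀ (θ : Th γ) (t), n • κ t = 0 → n • κ (act θ m t) = 0) :
    Inv (J := Unit) (LinearMap.ker ((n • κ).comp (LinearMap.proj ()))) := fun θ _ ht => h θ _ ht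

/-- the main step for a relatively free group with a least fully invariant subgroup -/
theorem core (hF : BFin) (hV : BVn) (hC : BCom) (hM : SMag) (hN : SN) (hH : SHaus) {I : Type}
    [Fintype I] (g : I → G) (hg : Subgroup.closure (Set.range g) = ⊤)
    (hfree : ∀ y : I → G, ∃ σ : G →* G, ∀ i, σ (g i) = y i) (hs : Group.IsSolvable G)
    (w : G) (hw : w ≠ 1) (hmin : ∀ X : Subgroup G, Fi X → X ≠ ⊥ → w ∈ X)
    (K₀ : Subgroup G) (c m d : ℕ) (h1 : CoVN K₀) (h2 : Bdd (K₀.lowerCentralSeries c)) (hm : 0 < m)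
    (h3 : (pw K₀ m).lowerCentralSeries d = ⊥) : ∃ K : Subgroup G, CoVN K ∧ Bdd K := by
  classical
  have hfg : Group.FG G := Group.fg_iff.2 ⟨_, hg, Set.finite_range g⟩
  obtain ⟨-, H, d', hHn, hHf, hle⟩ := h1
  have hD : Fi (pw (⊤ : Subgroup G) H.index) := Fi.pw (fun _ => le_top) _
  let K : Subgroup G := (pw ⊤ H.index).lowerCentralSeries d'
  have hK : Fi K := hD.lcs d'
  have hKv : CoVN K := hV.lcs G _ d' hD.normal
    (hF.pwFI G ⊤ _ hs hfg inferInstance (Nat.pos_of_ne_zero hHf.index_ne_zero))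
  have hK0 : K ≤ K₀ :=
    (Subgroup.lowerCentralSeries_mono d' (pw_le_of fun x _ => H.pow_index_mem x)).trans hle
  refine ⟨K, hKv, ?_⟩
  by_contra hb
  have := hK.normal
  have hvn : VN (G ⧸ K) := (hV.quot G K).1 hKv
  have hγ : Subgroup.closure (Set.range fun i => QuotientGroup.mk' K (g i)) = ⊤ := by
    rw [← Function.comp_def, Set.range_comp, ← MonoidHom.map_closure, hg]
    exact Subgroup.map_top_of_surjective _ (QuotientGroup.mk'_surjective K)
  have lay := layer hC hM g hg hfree K hK (QuotientGroup.mk' K) (QuotientGroup.ker_mk' K) hγ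
  -- bounded torsion in every factor
  have tors : ∀ j, ∃ n, 0 < n ∧ ∀ x ∈ K.lowerCentralSeries j, ∀ a, 0 < a →
      x ^ a ∈ K.lowerCentralSeries (j + 1) → x ^ n ∈ K.lowerCentralSeries (j + 1) := fun j => by
    obtain ⟨A, _, cl, κ, c1, c2, c3, c4⟩ := lay j
    have dv : ∀ (a b : ℕ) (y : A), a ∣ b → a • y = 0 → b • y = 0 := by
      rintro a _ y ⟨e, rfl⟩ h
      rw [mul_comm, mul_smul, h, smul_zero]
    obtain ⟨n, hn⟩ := hN _ I _ hvn hγ (j + 1) Unit
      (fun n => LinearMap.ker ((n.factorial • κ).comp (LinearMap.proj ())))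
      (fun a b hab t ht => dv _ _ _ (Nat.factorial_dvd_factorial hab) ht)
      fun n => inv_ker κ _ fun θ => c4 θ _
    refine ⟨n.factorial, n.factorial_pos, fun x hx a ha hxa => ?_⟩
    obtain ⟨t, ht⟩ := c3 x hx
    rw [← c2 _ (Subgroup.pow_mem _ hx _), add_pow c1 hx, ← ht] at hxa ⊢
    have h4 : (fun _ => t) ∈ LinearMap.ker
        (((max a n).factorial • κ).comp (LinearMap.proj (φ := fun _ : Unit => _) ())) :=
      dv _ _ _ (Nat.dvd_factorial ha (le_max_left a n)) hxa
    rw [hn _ (le_max_right a n)] at h4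
    exact h4
  have tors' : ∀ j, ∃ n, 0 < n ∧ ∀ x ∈ K, IsOfFinOrder x → x ^ n ∈ K.lowerCentralSeries j := by
    intro j
    induction j with
    | zero => exact ⟨1, one_pos, fun x hx _ => by rwa [pow_one]⟩
    | succ j ih =>
      obtain ⟨n, hn, ih⟩ := ih
      obtain ⟨n', hn', h⟩ := tors j
      refine ⟨n * n', Nat.mul_pos hn hn', fun x hx ho => ?_⟩
      rw [pow_mul]
      refine h _ (ih x hx ho) (orderOf x) ho.orderOf_pos ?_
      rw [← pow_mul, mul_comm, pow_mul, pow_orderOf_eq_one, one_pow]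
      exact Subgroup.one_mem _
  obtain ⟨b, hb0, hb1⟩ := h2
  have hb2 : ∀ x ∈ K.lowerCentralSeries c, x ^ b = 1 := fun x hx =>
    hb1 x (Subgroup.lowerCentralSeries_mono c hK0 hx)
  obtain ⟨m₁, hm₁, hto⟩ : ∃ n, 0 < n ∧ ∀ x ∈ K, IsOfFinOrder x → x ^ n = 1 := by
    obtain ⟨n, hn, h⟩ := tors' c
    exact ⟨n * b, Nat.mul_pos hn hb0, fun x hx ho => by rw [pow_mul, hb2 _ (h x hx ho)]⟩
  -- a torsion free abelian fully invariant subgroup
  have ex : ∃ e, ∃ X : Subgroup G, Fi X ∧ X ≤ K ∧ (∃ t, 0 < t ∧ ∀ x ∈ K, x ^ t ∈ X) ∧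
      X.lowerCentralSeries e = ⊥ :=
    ⟨d, pw K m, hK.pw m, pw_le K m, ⟨m, hm, fun x hx => pow_mem_pw hx m⟩,
      le_bot_iff.1 (h3 ▸ Subgroup.lowerCentralSeries_mono d (pw_mono hK0 m))⟩
  obtain ⟨X, X1, X2, ⟨t, ht, X3⟩, X4⟩ := Nat.find_spec ex
  obtain ⟨e, he⟩ : ∃ e, Nat.find ex = e + 1 := by
    refine Nat.exists_eq_succ_of_ne_zero fun h0 => hb ⟨t, ht, fun x hx => ?_⟩
    rw [h0, Subgroup.lowerCentralSeries_zero] at X4
    simpa [X4] using X3 x hx
  rw [he] at X4
  let Z : Subgroup G := X.lowerCentralSeries e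
  have ZX : Z ≤ X := X.lowerCentralSeries_le_self e
  have Zc : Cm Z Z := fun a ha b hb => by
    have : ⁅a, b⁆ ∈ X.lowerCentralSeries (e + 1) := Subgroup.commutator_mem_commutator ha (ZX hb)
    rw [X4, Subgroup.mem_bot, commutatorElement_eq_one_iff_mul_comm] at this
    exact this
  have Zne : pw Z m₁ ≠ ⊥ := fun h0 => by
    refine Nat.find_min ex (m := e) (by omega) ⟨pw X m₁, X1.pw m₁, (pw_le X m₁).trans X2,
      ⟨t * m₁, Nat.mul_pos ht hm₁, fun x hx => ?_⟩, le_bot_iff.1 ((hC.top G X e m₁).trans ?_)⟩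
    · rw [pow_mul]; exact pow_mem_pw (X3 x hx) m₁
    · refine sup_le (pw_le_of fun x hx => ?_) X4.le
      have : x ^ m₁ ∈ pw Z m₁ := pow_mem_pw hx m₁
      rw [h0, Subgroup.mem_bot] at this
      rw [pow_succ', pow_mul, this, one_pow]
      exact Subgroup.one_mem _
  have Zf : Fi Z := X1.lcs e
  have hwZ := hmin _ (Zf.pw m₁) Zne
  have hinf : ∀ n, 0 < n → w ^ n ≠ 1 := fun n hn h => by
    obtain ⟨z, hz, rfl⟩ := mem_pw Zc hwZ
    rw [← pow_mul] at h
    exact hw (hto z (X2 (ZX hz)) (isOfFinOrder_iff_pow_eq_one.2 ⟨_, Nat.mul_pos hm₁ hn, h⟩))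
  have hwZ' : w ∈ Z := pw_le Z m₁ hwZ
  have all : ∀ j, w ∈ K.lowerCentralSeries j := fun j => by
    induction j with
    | zero => exact X2 (ZX hwZ')
    | succ j ih =>
      obtain ⟨A, _, cl, κ, c1, c2, c3, c4⟩ := lay j
      obtain ⟨t, ht⟩ := c3 w ih
      by_contra hn
      obtain ⟨Δ, n, -, -, hn0, hnot⟩ := hH _ I _ hvn hγ (j + 1) Unit _
        (inv_ker κ 1 fun θ => c4 θ 1) (fun _ => t) fun h => hn <| by
          have h' : 1 • κ t = 0 := h
          rwa [one_smul, ht, c2 w ih] at h'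
      have hY : pw (Z ⊓ K.lowerCentralSeries j) n ≠ ⊥ := fun h0 => hinf n hn0 <| by
        have : w ^ n ∈ pw (Z ⊓ K.lowerCentralSeries j) n := pow_mem_pw (Subgroup.mem_inf.2 ⟨hwZ', ih⟩) n
        rwa [h0, Subgroup.mem_bot] at this
      obtain ⟨s, hs, e⟩ := mem_pw (X := Z ⊓ K.lowerCentralSeries j) (fun a ha b hb => Zc a ha.1 b hb.1)
        (hmin _ ((Zf.inf (hK.lcs j)).pw n) hY)
      obtain ⟨t', ht'⟩ := c3 s hs.2
      refine hnot (Submodule.mem_sup.2 ⟨fun _ => t - n • t', ?_, fun _ => n • t',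
        fun _ _ => Submodule.subset_span (Or.inl ⟨t', rfl⟩), funext fun _ => sub_add_cancel _ _⟩)
      change 1 • κ (t - n • t') = 0
      rw [one_smul, map_sub, map_nsmul, ht, ht', e, add_pow c1 hs.2, sub_self]
  exact hinf b hb0 (hb2 w (all c))

end BddA

open BddA in
theorem bdd : BFin → BVn → BCom → SStr → SMag → SN → SHaus → SBdd := by
  classical
  intro hF hV hC hS hM hN hH S u ⟨ds, hsol⟩ hgood hadm k w G₀ _ hG₀ g₀ hw₀
  let N₀ : Subgroup (FreeGroup (Fin k)) :=
    { carrier := {f | ∀ (H : Type) [Group H], InV S H → ∀ φ : FreeGroup (Fin k) →* H, φ f = 1}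
      one_mem' := fun _ _ _ φ => map_one φ
      mul_mem' := fun ha hb H _ h φ => by rw [map_mul, ha H h, hb H h, one_mul]
      inv_mem' := fun ha H _ h φ => by rw [map_inv, ha H h, inv_one] }
  have hN₀ : Fi N₀ := by
    rintro σ _ ⟨x, hx, rfl⟩ H _ h φ
    exact hx H h (φ.comp σ)
  obtain ⟨N, hle, hmax⟩ := zorn_le_nonempty₀ {N : Subgroup (FreeGroup (Fin k)) | Fi N ∧ w ∉ N}
    (fun C hC1 hC2 y hy => by
      have hm := fun x => Subgroup.mem_sSup_of_directedOn ⟨y, hy⟩ hC2.directedOn (x := x)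
      refine ⟨sSup C, ⟨?_, fun h => ?_⟩, fun z hz => le_sSup hz⟩
      · rintro σ _ ⟨x, hx, rfl⟩
        obtain ⟨s, hs, hx⟩ := (hm x).1 hx
        exact (hm _).2 ⟨s, hs, (hC1 hs).1.mem σ hx⟩
      · obtain ⟨s, hs, hx⟩ := (hm w).1 h
        exact (hC1 hs).2 hx)
    N₀ ⟨hN₀, fun h => hw₀ (h G₀ hG₀ _)⟩
  obtain ⟨hNf, hwN⟩ := hmax.prop
  have := hNf.normal
  let π := QuotientGroup.mk' N
  have hπ : Function.Surjective π := QuotientGroup.mk'_surjective N
  let g : Fin k → FreeGroup (Fin k) ⧸ N := fun i => π (FreeGroup.of i)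
  have hl : FreeGroup.lift g = π := FreeGroup.ext_hom _ _ fun i => FreeGroup.lift_apply_of
  have hg : Subgroup.closure (Set.range g) = ⊤ := by
    rw [← FreeGroup.range_lift_eq_closure, hl, MonoidHom.range_eq_top.2 hπ]
  have hdesc : ∀ τ : FreeGroup (Fin k) →* FreeGroup (Fin k),
      ∃ σ : FreeGroup (Fin k) ⧸ N →* FreeGroup (Fin k) ⧸ N, ∀ x, σ (π x) = π (τ x) := fun τ =>
    ⟨QuotientGroup.map N N τ fun _ hx => hNf.mem τ hx, fun _ => rfl⟩
  have hin : InV S (FreeGroup (Fin k) ⧸ N) := fun s hs f => by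
    choose y hy using fun i => hπ (f (FreeGroup.of i))
    have : f = π.comp (FreeGroup.lift y) := FreeGroup.ext_hom _ _ fun i => by simp [hy]
    rw [this]
    exact (QuotientGroup.eq_one_iff _).2 (hle fun H _ h φ => h s hs (φ.comp (FreeGroup.lift y)))
  have hs : Group.IsSolvable (FreeGroup (Fin k) ⧸ N) :=
    ⟨ds, hsol (GrpCat.of (FreeGroup (Fin k) ⧸ N)) hin⟩
  have hw : π w ≠ 1 := fun h => hwN ((QuotientGroup.eq_one_iff _).1 h)
  obtain ⟨K₀, c, m, d, h1, h2, hm, h3⟩ := hS u hgood _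
    (Group.fg_iff.2 ⟨_, hg, Set.finite_range g⟩) hs (hadm _ hin)
  obtain ⟨K, hK1, hK2⟩ := core hF hV hC hM hN hH g hg (fun y => by
      choose y' hy' using fun i => hπ (y i)
      obtain ⟨σ, hσ⟩ := hdesc (FreeGroup.lift y')
      exact ⟨σ, fun i => by rw [hσ, FreeGroup.lift_apply_of, hy']⟩) hs (π w) hw
    (fun X hX hne => by
      by_contra hwX
      have hXf : Fi (X.comap π) := by
        rintro τ _ ⟨x, hx, rfl⟩
        obtain ⟨σ, hσ⟩ := hdesc τ
        rw [Subgroup.mem_comap, ← hσ]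
        exact hX.mem σ hx
      have hNX : N ≤ X.comap π := fun x hx => by
        rw [Subgroup.mem_comap, show π x = 1 from (QuotientGroup.eq_one_iff _).2 hx]
        exact X.one_mem
      have := hmax.le_of_ge ⟨hXf, hwX⟩ hNX
      refine hne (eq_bot_iff.2 fun x hx => ?_)
      obtain ⟨y, rfl⟩ := hπ x
      exact (QuotientGroup.eq_one_iff _).2 (this hx)) K₀ c m d h1 h2 hm h3
  exact ⟨_, inferInstance, g, K, hin, hg, by rwa [hl], hK1, hK2⟩

end Pool.Agent.MP_5c28a4_al.H89S
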