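import Pool.Agent.MP_5c28a4_al.H8S.Spec

/-!
Section S5: local generation under a coprime action.
-/

set_option autoImplicit false

namespace Pool.Agent.MP_5c28a4_al.H89S.StA

open scoped commutatorElement

namespace StLgq

variable {H : Type} [Group H]

theorem fin_pairs {O V : Subgroup H} {x : H} (hx : x ∈ ⁅O, V⁆) : ∃ W : Finset (H × H),
    (∀ w ∈ W, w.1 ∈ O ∧ w.2 ∈ V) ∧ ∀ U : Subgroup H, (∀ w ∈ W, ⁅w.1, w.2⁆ ∈ U) → x ∈ U := by
  classical
  induction hx using Subgroup.closure_induction with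
  | mem x hx =>
    obtain ⟨a, ha, b, hb, rfl⟩ := hx
    exact ⟨{(a, b)}, by simpa using ⟨ha, hb⟩, fun U h => h (a, b) (Finset.mem_singleton_self _)⟩
  | one => exact ⟨∅, by simp, fun U _ => U.one_mem⟩
  | mul x y _ _ hx hy =>
    obtain ⟨W, h1, h2⟩ := hx
    obtain ⟨W', h1', h2'⟩ := hy
    exact ⟨W ∪ W', fun w hw => (Finset.mem_union.1 hw).elim (h1 w) (h1' w), fun U h =>
      U.mul_mem (h2 U fun w hw => h w (Finset.mem_union_left _ hw))
        (h2' U fun w hw => h w (Finset.mem_union_right _ hw))⟩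
  | inv x _ hx =>
    obtain ⟨W, h1, h2⟩ := hx
    exact ⟨W, h1, fun U h => U.inv_mem (h2 U h)⟩

theorem mem_win {I : Type} [DecidableEq I] (g : I → H) {l : ℕ} {T : Set H} {f : FreeGroup I}
    (hf : f.norm ≤ l) {t : H} (ht : t ∈ T) :
    FreeGroup.lift g f * t * (FreeGroup.lift g f)⁻¹ ∈ win g l T :=
  Subgroup.subset_closure ⟨f, hf, t, ht, rfl⟩

end StLgq

open StLgq in
theorem lgq : SLNW → SLGq := by
  classical
  intro hL H _ hfg V O p q hp hq hqp hV hO hVO hlf hc hpV hqO hle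
  obtain ⟨S, hS⟩ := hfg.out
  let g : S → H := Subtype.val
  have hsurj : ∀ x : H, ∃ f, FreeGroup.lift g f = x := fun x => by
    have : x ∈ (FreeGroup.lift g).range := by
      rw [FreeGroup.range_lift_eq_closure, Subtype.range_coe, hS]; trivial
    exact this
  choose wd hwd using hsurj
  have cop : ∀ a b : ℕ, (p ^ a).Coprime (q ^ b) := fun a b =>
    Nat.Coprime.pow _ _ ((Nat.coprime_primes hp hq).2 hqp.symm)
  refine ⟨Fintype.card S, fun F hF => ?_⟩
  choose W₀ hW1 hW2 using fun x : F => fin_pairs (hle (hF x.1 x.2))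
  let W : Finset (H × H) := Finset.univ.biUnion W₀
  have hW : ∀ w ∈ W, w.1 ∈ O ∧ w.2 ∈ V := fun w hw => by
    obtain ⟨x, -, h⟩ := Finset.mem_biUnion.1 hw
    exact hW1 x w h
  have hT : ∀ t ∈ Prod.fst '' (W : Set (H × H)), t ∈ O := by
    rintro _ ⟨w, hw, rfl⟩
    exact (hW w hw).1
  obtain ⟨u, J, s, hu, -, -, hJ, hs, hwin⟩ := hL H S O V q hq hO hlf hV hVO
    (fun x hx => by
      obtain ⟨e, he⟩ := hpV x hx
      exact ⟨p ^ e, by simpa using cop e 1, he⟩)
    g (W.sup fun w => (wd w.2).norm) (Prod.fst '' (W : Set (H × H))) (W.finite_toSet.image _) hT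
    fun x hx => hqO x ((Subgroup.closure_le O).2 (by
      rintro _ ⟨f, -, t, ht, rfl⟩
      exact hO.conj_mem t (hT t ht) _) hx)
  have hT' : ∀ x ∈ Finset.univ.image u, x ∈ V := fun x hx => by
    obtain ⟨i, -, rfl⟩ := Finset.mem_image.1 hx
    exact hu i
  refine ⟨Finset.univ.image u, Finset.card_image_le, hT', fun x hx => Subgroup.mem_sup_left ?_⟩
  set U := Subgroup.normalClosure (↑(Finset.univ.image u) : Set H)
  have hUV : U ≤ V := Subgroup.normalClosure_le_normal hT'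
  refine hW2 ⟨x, hx⟩ U fun w hw0 => ?_
  have hw : w ∈ W := Finset.mem_biUnion.2 ⟨_, Finset.mem_univ _, hw0⟩
  obtain ⟨r, v⟩ := w
  obtain ⟨-, hv⟩ := hW _ hw
  have hr : r ∈ Prod.fst '' (W : Set (H × H)) := ⟨_, hw, rfl⟩
  have h1 : s r ∈ J := by
    have := hwin (mem_win (u * g) (f := 1) (by simp) ⟨r, hr, rfl⟩)
    simpa using this
  have h2 := hwin (mem_win (u * g) (Finset.le_sup (f := fun w : H × H => (wd w.2).norm) hw)
    ⟨r, hr, rfl⟩)
  have h3 : FreeGroup.lift (u * g) (wd v) * v⁻¹ ∈ U := by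
    have : (QuotientGroup.mk' U).comp (FreeGroup.lift (u * g)) =
        (QuotientGroup.mk' U).comp (FreeGroup.lift g) := FreeGroup.ext_hom _ _ fun i => by
      have : QuotientGroup.mk' U (u i) = 1 := (QuotientGroup.eq_one_iff _).2
        (Subgroup.subset_normalClosure (Finset.mem_image_of_mem u (Finset.mem_univ i)))
      simp only [MonoidHom.comp_apply, FreeGroup.lift_apply_of, Pi.mul_apply, map_mul, this, one_mul]
    have h := DFunLike.congr_fun this (wd v)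
    rw [MonoidHom.comp_apply, MonoidHom.comp_apply, hwd] at h
    rw [← QuotientGroup.ker_mk' U, MonoidHom.mem_ker, map_mul, map_inv, h, mul_inv_cancel]
  generalize FreeGroup.lift (u * g) (wd (r, v).2) = z at h2 h3
  have hz : z ∈ V := by simpa using V.mul_mem (hUV h3) hv
  have h4 : z * s r * z⁻¹ * (s r)⁻¹ = 1 := by
    obtain ⟨a, ha⟩ := hpV (z * (s r * z⁻¹ * (s r)⁻¹)) (V.mul_mem hz (hV.conj_mem _ (V.inv_mem hz) _))
    obtain ⟨b, hb⟩ := hJ ⟨_, J.mul_mem h2 (J.inv_mem h1)⟩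
    refine eq_one_of_coprime (cop a b) ?_ (congrArg Subtype.val hb)
    simpa only [mul_assoc, Subgroup.mem_bot] using ha
  have h5 := hc _ (hs r hr) _ (hV.conj_mem v hv r)
  have h6 : ⁅r, v⁆ = s r * (z * v⁻¹)⁻¹ * (s r)⁻¹ * (z * v⁻¹) := by
    have e1 : r * v * r⁻¹ = s r * v * (s r)⁻¹ := by
      calc r * v * r⁻¹ = r * v * r⁻¹ * (s r * r⁻¹) * (s r * r⁻¹)⁻¹ := by group
        _ = s r * v * (s r)⁻¹ := by rw [← h5]; group
    have e2 : z = s r * z * (s r)⁻¹ := by
      rw [eq_mul_inv_iff_mul_eq, ← mul_inv_eq_one, mul_inv_rev, ← mul_assoc]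
      exact h4
    rw [commutatorElement_def, e1]
    calc s r * v * (s r)⁻¹ * v⁻¹ = s r * v * z⁻¹ * (s r)⁻¹ * (s r * z * (s r)⁻¹) * v⁻¹ := by group
      _ = _ := by rw [← e2]; group
  change ⁅r, v⁆ ∈ U
  rw [h6]
  exact U.mul_mem (Subgroup.normalClosure_normal.conj_mem _ (U.inv_mem h3) _) h3

end Pool.Agent.MP_5c28a4_al.H89S.StA
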