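import Pool.Agent.MP_5c28a4_al.H68S.Spec

/-!
Section S2: common multiples of words, and tame values on abelian subgroups.
-/

set_option autoImplicit false

namespace Pool.Agent.MP_5c28a4_al.H89S.StrA

open scoped commutatorElement
open StA Ut3A

namespace StrUz

/-- shifting the generators -/
def sh (a : ℤ) : FreeGroup ℤ →* FreeGroup ℤ := FreeGroup.lift fun b : ℤ => FreeGroup.of (a + b)

/-- substitution of the shifts of `w'` -/
def sb (w' : FreeGroup ℤ) : FreeGroup ℤ →* FreeGroup ℤ := FreeGroup.lift fun a : ℤ => sh a w'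

theorem evz_sh {N : Type} [Group N] (y z : N) (a : ℤ) (w : FreeGroup ℤ) :
    evz y z (sh a w) = z ^ a * evz y z w * (z ^ a)⁻¹ := by
  have : (evz y z).comp (sh a) = (MulAut.conj (z ^ a)).toMonoidHom.comp (evz y z) :=
    FreeGroup.ext_hom _ _ fun b => by
      change evz y z (sh a (FreeGroup.of b)) = z ^ a * evz y z (FreeGroup.of b) * (z ^ a)⁻¹
      rw [sh, FreeGroup.lift_apply_of, evz_of, evz_of, zpow_add]
      simp only [mul_inv_rev, mul_assoc]
  exact DFunLike.congr_fun this w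

theorem evz_sb {N : Type} [Group N] (y z : N) (w w' : FreeGroup ℤ) :
    evz y z (sb w' w) = evz (evz y z w') z w := by
  have : (evz y z).comp (sb w') = evz (evz y z w') z :=
    FreeGroup.ext_hom _ _ fun a => by
      rw [MonoidHom.comp_apply, sb, FreeGroup.lift_apply_of, evz_sh, evz_of]
  exact DFunLike.congr_fun this w

/-- the Laurent polynomial of a word -/
noncomputable def lp (w : FreeGroup ℤ) : AddMonoidAlgebra ℤ ℤ := .ofCoeff (ab w)

theorem lp_one : lp 1 = 0 := by rw [lp, ab_one]; rfl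

theorem lp_of (a : ℤ) : lp (FreeGroup.of a) = AddMonoidAlgebra.single a 1 := by
  rw [lp, ab_of]; rfl

theorem lp_mul (v w : FreeGroup ℤ) : lp (v * w) = lp v + lp w := by rw [lp, ab_mul]; rfl

theorem lp_inv (w : FreeGroup ℤ) : lp w⁻¹ = - lp w := by rw [lp, ab_inv]; rfl

theorem lp_inj {v w : FreeGroup ℤ} : lp v = lp w ↔ ab v = ab w := AddMonoidAlgebra.ofCoeff_inj

theorem lp_eq_zero {w : FreeGroup ℤ} : lp w = 0 ↔ ab w = 0 := AddMonoidAlgebra.ofCoeff_eq_zero

theorem lp_sh (a : ℤ) (w : FreeGroup ℤ) : lp (sh a w) = AddMonoidAlgebra.single a 1 * lp w := by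
  induction w using FreeGroup.induction_on with
  | C1 => rw [map_one, lp_one, mul_zero]
  | of b =>
    rw [sh, FreeGroup.lift_apply_of, lp_of, lp_of, AddMonoidAlgebra.single_mul_single, one_mul]
  | inv_of b ih => rw [map_inv, lp_inv, lp_inv, ih, mul_neg]
  | mul v w hv hw => rw [map_mul, lp_mul, lp_mul, hv, hw, mul_add]

theorem lp_sb (w w' : FreeGroup ℤ) : lp (sb w' w) = lp w * lp w' := by
  induction w using FreeGroup.induction_on with
  | C1 => rw [map_one, lp_one, zero_mul]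
  | of b => rw [sb, FreeGroup.lift_apply_of, lp_sh, lp_of]
  | inv_of b ih => rw [map_inv, lp_inv, lp_inv, ih, neg_mul]
  | mul v w hv hw => rw [map_mul, lp_mul, lp_mul, hv, hw, add_mul]

theorem comm_of_ab {w : FreeGroup ℤ} (h : ab w = 0) : w ∈ commutator (FreeGroup ℤ) := by
  rw [← Abelianization.ker_of, MonoidHom.mem_ker, hom_eq_prod, h, Finsupp.prod_zero_index]

theorem evz_comm {N : Type} [Group N] {P : Subgroup N} {y z : N} (hy : y ∈ P) (hz : Nz z P)
    {w : FreeGroup ℤ} (h : ab w = 0) : evz y z w ∈ ⁅P, P⁆ := by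
  have h1 : (evz y z).range ≤ P := by
    rintro _ ⟨v, rfl⟩
    exact evz_mem hy hz v
  have := Subgroup.mem_map_of_mem (evz y z) (comm_of_ab h)
  rw [commutator_def, Subgroup.map_commutator, ← MonoidHom.range_eq_map] at this
  exact Subgroup.commutator_mono h1 h1 this

theorem exists_mult (ws : List (FreeGroup ℤ)) (h : ∀ w ∈ ws, ab w ≠ 0) :
    ∃ W : FreeGroup ℤ, lp W ≠ 0 ∧ ∀ w ∈ ws, ∃ W', lp W = lp w * lp W' := by
  induction ws with
  | nil => exact ⟨FreeGroup.of 0, by rw [lp_of]; simp, by simp⟩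
  | cons v ws ih =>
    obtain ⟨W, h1, h2⟩ := ih fun w hw => h w (by simp [hw])
    refine ⟨sb W v, ?_, fun w hw => ?_⟩
    · rw [lp_sb]
      exact mul_ne_zero (fun e => h v (by simp) (lp_eq_zero.1 e)) h1
    · rcases List.mem_cons.1 hw with rfl | hw
      · exact ⟨W, lp_sb _ _⟩
      · obtain ⟨W', e⟩ := h2 w hw
        exact ⟨sb W' v, by rw [lp_sb, lp_sb, e, mul_left_comm]⟩

/-- a class modulo `l` splits into classes over the integers -/
theorem exists_class {ι κ : Type} [DecidableEq κ] (S : Finset ι) (Q : ι → Prop) [DecidablePred Q]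
    (g : ι → κ) (hg : ∀ i j, g i = g j → Q j → Q i) (c : ι → ℤ) (l : ℤ)
    (h : ¬ l ∣ ∑ i ∈ S.filter Q, c i) :
    ∃ j, ¬ l ∣ ∑ i ∈ S.filter (fun i => g i = g j), c i := by
  by_contra hc
  push Not at hc
  apply h
  rw [← Finset.sum_fiberwise_of_maps_to (t := (S.filter Q).image g) (g := g)
    fun i hi => Finset.mem_image_of_mem g hi]
  refine Finset.dvd_sum fun k hk => ?_
  obtain ⟨j, hj, rfl⟩ := Finset.mem_image.1 hk
  have : (S.filter Q).filter (fun i => g i = g j) = S.filter fun i => g i = g j := by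
    ext i
    simp only [Finset.mem_filter]
    exact ⟨fun x => ⟨x.1.1, x.2⟩, fun x => ⟨⟨x.1, hg i j x.2 (Finset.mem_filter.1 hj).2⟩, x.2⟩⟩
  rw [this]
  exact hc j

end StrUz

open StrUz

theorem cm : SCm := by
  intro ws h
  obtain ⟨W, h1, h2⟩ := exists_mult ws h
  refine ⟨W, fun e => h1 (lp_eq_zero.2 e), fun w hw => ?_⟩
  obtain ⟨W', e⟩ := h2 w hw
  refine ⟨W', fun N _ P y z hy hz => ?_⟩
  rw [← evz_sb, ← map_inv, ← map_mul]
  refine evz_comm hy hz ?_
  rw [ab_div, sub_eq_zero, ← lp_inj, lp_sb, e]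

theorem uz : SID0 → SCm → SUz := by
  classical
  intro hI hC u l hl hu
  obtain ⟨u₀, w₀, -, h2, h3⟩ := hI l (u l) hl hu
  obtain ⟨w₁, h4⟩ := exists_class u₀.support _ ab
    (fun i j e hj => by rw [e]; exact hj) u₀ l h2
  obtain ⟨W, hW, h5⟩ := hC ((u₀.support.filter fun w => ¬ ab w = ab w₁).toList.map
    fun w => w * w₁⁻¹) (by
      intro w hw
      obtain ⟨v, hv, rfl⟩ := List.mem_map.1 hw
      rw [ab_div, sub_ne_zero]
      exact (Finset.mem_filter.1 (Finset.mem_toList.1 hv)).2)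
  refine ⟨W, hW, fun N A _ _ ρ hρ B z hB hz => ?_⟩
  refine Tm.of_kill (n := (u₀.support.filter fun w => ¬ ab w = ab w₁).card)
    ((mem_La hl).2 h4) fun L hL hLX => ?_
  have hbot : ⁅B, B⁆ = ⊥ := cm_iff.1 hB
  have key := dedk ρ B u₀.support (fun w => ab w = ab w₁)
    (fun w c => evz c z (w * w₁⁻¹)) (fun w => u₀ w • 1) {x | ∃ b ∈ B, x = evz b z W}
    (fun w _ a ha b hb => evz_mul hB hz ha hb _)
    (fun v _ w _ a ha b hb => hB _ (evz_mem ha hz _) _ (evz_mem hb hz _))
    (fun w _ hw c hc => by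
      have := evz_comm hc hz (w := w * w₁⁻¹) (by rw [ab_div, hw, sub_self])
      rwa [hbot, Subgroup.mem_bot] at this)
    (by
      rintro w hw hQ _ ⟨b, hb, rfl⟩
      obtain ⟨W', h6⟩ := h5 (w * w₁⁻¹)
        (List.mem_map_of_mem (Finset.mem_toList.2 (Finset.mem_filter.2 ⟨hw, hQ⟩)))
      have := h6 N B b z hb hz
      rw [hbot, Subgroup.mem_bot, mul_inv_eq_one] at this
      exact ⟨_, evz_mem hb hz W', this.symm⟩)
    (fun c hc => by
      have := shift ρ (h3 N A ρ (hρ l hl) B c z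
        (lcs_two (B := B) hB (hbot.le.trans bot_le)) hc hz) w₁
      simpa only [mul_smul_comm, mul_one] using this) L hL hLX
  rw [← Finset.sum_smul, mul_smul_comm, mul_one] at key
  exact key

end Pool.Agent.MP_5c28a4_al.H89S.StrA
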